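import Mathlib

/-!
Lower bounds for sums of Euler's totient over odd numbers in blocks.
-/

set_option autoImplicit false

namespace Pool.Agent.Lib.MP_4e48d5_nt

open Finset

theorem sum_totient_mul_div (T : ℕ) :
    ∑ d ∈ Ioc 0 T, Nat.totient d * (T / d) = ∑ n ∈ Ioc 0 T, n := by
  have h1 : ∑ n ∈ Ioc 0 T, n = ∑ n ∈ Ioc 0 T, ∑ d ∈ n.divisors, Nat.totient d := by
    apply Finset.sum_congr rfl
    intro n _
    exact (Nat.sum_totient n).symm
  rw [h1]
  have h2 : ∀ n ∈ Ioc 0 T, ∑ d ∈ n.divisors, Nat.totient d =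
      ∑ d ∈ Ioc 0 T, if d ∣ n then Nat.totient d else 0 := by
    intro n hn
    rw [Finset.mem_Ioc] at hn
    rw [← Finset.sum_filter]
    apply Finset.sum_congr
    · ext d
      simp only [Nat.mem_divisors, Finset.mem_filter, Finset.mem_Ioc]
      constructor
      · rintro ⟨hd, _⟩
        exact ⟨⟨Nat.pos_of_dvd_of_pos hd hn.1, (Nat.le_of_dvd hn.1 hd).trans hn.2⟩, hd⟩
      · rintro ⟨_, hd⟩
        exact ⟨hd, by omega⟩
    · intro _ _; rfl
  rw [Finset.sum_congr rfl h2, Finset.sum_comm]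
  apply Finset.sum_congr rfl
  intro d _
  rw [← Finset.sum_filter, Finset.sum_const, Nat.Ioc_filter_dvd_card_eq_div, smul_eq_mul, mul_comm]

theorem sum_totient_div_ge (T : ℕ) (hT : 0 < T) :
    ((T:ℝ) + 1) / 2 ≤ ∑ d ∈ Ioc 0 T, (Nat.totient d : ℝ) / d := by
  have h := sum_totient_mul_div T
  have h2 : (∑ n ∈ Ioc 0 T, (n:ℝ)) = (T:ℝ) * (T+1) / 2 := by
    have e : ∀ m : ℕ, (∑ n ∈ Ioc 0 m, (n:ℝ)) = (m:ℝ) * (m+1) / 2 := by
      intro m
      induction m with
      | zero => simp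
      | succ m ih =>
        rw [Finset.sum_Ioc_succ_top (Nat.zero_le m), ih]
        push_cast; ring
    exact e T
  have h3 : (∑ d ∈ Ioc 0 T, (Nat.totient d : ℝ) * ((T / d : ℕ):ℝ)) = (T:ℝ) * (T+1) / 2 := by
    rw [← h2]
    have h' : ((∑ d ∈ Ioc 0 T, Nat.totient d * (T / d) : ℕ) : ℝ) =
        ((∑ n ∈ Ioc 0 T, n : ℕ) : ℝ) := by rw [h]
    rw [Nat.cast_sum, Nat.cast_sum] at h'
    simp only [Nat.cast_mul] at h'
    exact h'
  have h4 : (∑ d ∈ Ioc 0 T, (Nat.totient d : ℝ) * ((T / d : ℕ):ℝ)) ≤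
      T * ∑ d ∈ Ioc 0 T, (Nat.totient d : ℝ) / d := by
    rw [Finset.mul_sum]
    apply Finset.sum_le_sum
    intro d hd
    rw [Finset.mem_Ioc] at hd
    have hd0 : (0:ℝ) < d := by exact_mod_cast hd.1
    calc (Nat.totient d : ℝ) * ((T / d : ℕ):ℝ) ≤ (Nat.totient d : ℝ) * ((T:ℝ) / d) := by
          apply mul_le_mul_of_nonneg_left Nat.cast_div_le (Nat.cast_nonneg _)
      _ = T * ((Nat.totient d : ℝ) / d) := by ring
  rw [h3] at h4
  have hT' : (0:ℝ) < T := by exact_mod_cast hT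
  have h5 : (T:ℝ) * (((T:ℝ)+1)/2) ≤ T * ∑ d ∈ Ioc 0 T, (Nat.totient d : ℝ) / d := by
    calc (T:ℝ) * (((T:ℝ)+1)/2) = (T:ℝ) * (T+1) / 2 := by ring
      _ ≤ _ := h4
  exact le_of_mul_le_mul_left h5 hT'

theorem totient_two_mul_le (m : ℕ) : Nat.totient (2*m) ≤ m := by
  induction m using Nat.strong_induction_on with
  | _ m ih =>
    rcases Nat.even_or_odd m with ⟨k, hk⟩ | hodd
    · rcases Nat.eq_zero_or_pos k with h0 | hpos
      · subst hk; simp [h0]
      · have hm : m = 2 * k := by omega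
        have h1 := ih k (by omega)
        rw [hm, Nat.totient_mul_of_prime_of_dvd Nat.prime_two (dvd_mul_right 2 k)]
        omega
    · have hc : Nat.Coprime 2 m := by
        rw [Nat.coprime_two_left]; exact hodd
      rw [Nat.totient_mul hc]
      simp [Nat.totient_le]

theorem card_filter_even (T : ℕ) : ((Ioc 0 T).filter (fun q => ¬ Odd q)).card = T / 2 := by
  have : (Ioc 0 T).filter (fun q => ¬ Odd q) = (Ioc 0 T).filter (fun q => 2 ∣ q) := by
    apply Finset.filter_congr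
    intro q _
    rw [Nat.not_odd_iff_even, even_iff_two_dvd]
  rw [this, Nat.Ioc_filter_dvd_card_eq_div]

theorem sum_odd_totient_div_ge (T : ℕ) (hT : 0 < T) :
    (T:ℝ) / 4 ≤ ∑ d ∈ (Ioc 0 T).filter (fun q => Odd q), (Nat.totient d : ℝ) / d := by
  have h1 := sum_totient_div_ge T hT
  rw [← Finset.sum_filter_add_sum_filter_not (Ioc 0 T) (fun q => Odd q)] at h1
  have h2 : ∑ d ∈ (Ioc 0 T).filter (fun q => ¬ Odd q), (Nat.totient d : ℝ) / d ≤
      ∑ d ∈ (Ioc 0 T).filter (fun q => ¬ Odd q), (1/2 : ℝ) := by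
    apply Finset.sum_le_sum
    intro d hd
    rw [Finset.mem_filter, Finset.mem_Ioc, Nat.not_odd_iff_even] at hd
    obtain ⟨⟨hd0, _⟩, k, hk⟩ := hd
    have hd0' : (0:ℝ) < d := by exact_mod_cast hd0
    rw [div_le_div_iff₀ hd0' (by norm_num)]
    have h3 := totient_two_mul_le k
    have h4 : d = 2 * k := by omega
    rw [h4]
    have h5 : (Nat.totient (2*k) : ℝ) ≤ k := by exact_mod_cast h3
    push_cast; linarith
  rw [Finset.sum_const, card_filter_even, nsmul_eq_mul] at h2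
  have h3 : ((T/2 : ℕ) : ℝ) ≤ (T:ℝ)/2 := by
    exact_mod_cast (Nat.cast_div_le (α := ℝ) (m := T) (n := 2))
  linarith

/-- The odd numbers in `(4^i, 4^(i+1)]`. -/
def oddBlock (i : ℕ) : Finset ℕ := (Ioc (4^i) (4^(i+1))).filter (fun q => Odd q)

theorem card_odd_Ioc (m : ℕ) : ((Ioc 0 (2*m)).filter (fun q => Odd q)).card = m := by
  have h1 := Finset.card_filter_add_card_filter_not (s := Ioc 0 (2*m)) (fun q => Odd q)
  rw [card_filter_even, Nat.card_Ioc] at h1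
  omega

theorem card_oddBlock (i : ℕ) (hi : 1 ≤ i) : 8 * (oddBlock i).card = 3 * 4^(i+1) := by
  obtain ⟨k, rfl⟩ : ∃ k, i = k + 1 := ⟨i - 1, by omega⟩
  have e1 : (4:ℕ)^(k+1) = 2 * (2 * 4^k) := by ring
  have e2 : (4:ℕ)^(k+1+1) = 2 * (8 * 4^k) := by ring
  have hdisj : Disjoint ((Ioc 0 (4^(k+1))).filter (fun q => Odd q)) (oddBlock (k+1)) := by
    rw [Finset.disjoint_left]
    intro q hq hq'
    rw [Finset.mem_filter, Finset.mem_Ioc] at hq
    rw [oddBlock, Finset.mem_filter, Finset.mem_Ioc] at hq'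
    omega
  have hunion : (Ioc 0 (4^(k+1))).filter (fun q => Odd q) ∪ oddBlock (k+1) =
      (Ioc 0 (4^(k+1+1))).filter (fun q => Odd q) := by
    rw [oddBlock, ← Finset.filter_union, Finset.Ioc_union_Ioc_eq_Ioc (Nat.zero_le _)]
    exact Nat.pow_le_pow_right (by norm_num) (by omega)
  have h := Finset.card_union_of_disjoint hdisj
  rw [hunion, e2, card_odd_Ioc, e1, card_odd_Ioc] at h
  rw [e2]; omega

theorem sum_totient_oddBlock_ge (i : ℕ) (hi : 1 ≤ i) :
    ((4:ℝ)^(i+1))^2 / 32 ≤ ∑ q ∈ oddBlock i, (Nat.totient q : ℝ) := by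
  have h1 := sum_odd_totient_div_ge (4^(i+1)) (by positivity)
  have hle : (4:ℕ)^i ≤ 4^(i+1) := Nat.pow_le_pow_right (by norm_num) (by omega)
  have hdisj : Disjoint ((Ioc 0 (4^i)).filter (fun q => Odd q)) (oddBlock i) := by
    rw [Finset.disjoint_left]
    intro q hq hq'
    rw [Finset.mem_filter, Finset.mem_Ioc] at hq
    rw [oddBlock, Finset.mem_filter, Finset.mem_Ioc] at hq'
    omega
  have hunion : (Ioc 0 (4^i)).filter (fun q => Odd q) ∪ oddBlock i =
      (Ioc 0 (4^(i+1))).filter (fun q => Odd q) := by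
    rw [oddBlock, ← Finset.filter_union, Finset.Ioc_union_Ioc_eq_Ioc (Nat.zero_le _) hle]
  rw [← hunion, Finset.sum_union hdisj] at h1
  have h2 : ∑ q ∈ (Ioc 0 (4^i)).filter (fun q => Odd q), (Nat.totient q : ℝ) / q ≤
      ∑ q ∈ (Ioc 0 (4^i)).filter (fun q => Odd q), (1:ℝ) := by
    apply Finset.sum_le_sum
    intro d hd
    rw [Finset.mem_filter, Finset.mem_Ioc] at hd
    have hd0' : (0:ℝ) < d := by exact_mod_cast hd.1.1
    rw [div_le_one hd0']
    exact_mod_cast Nat.totient_le d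
  have hcard : ((Ioc 0 (4^i)).filter (fun q => Odd q)).card * 8 = 4^(i+1) := by
    obtain ⟨k, rfl⟩ : ∃ k, i = k + 1 := ⟨i - 1, by omega⟩
    have e1 : (4:ℕ)^(k+1) = 2 * (2 * 4^k) := by ring
    rw [e1, card_odd_Ioc]; ring
  rw [Finset.sum_const, nsmul_eq_mul, mul_one] at h2
  have hcard' : (((Ioc 0 (4^i)).filter (fun q => Odd q)).card : ℝ) = (4:ℝ)^(i+1) / 8 := by
    rw [eq_div_iff (by norm_num)]
    exact_mod_cast hcard
  rw [hcard'] at h2
  push_cast at h1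
  have h3 : (4:ℝ)^(i+1)/8 ≤ ∑ q ∈ oddBlock i, (Nat.totient q : ℝ) / q := by linarith
  have h4 : ∑ q ∈ oddBlock i, (Nat.totient q : ℝ) / q ≤
      ∑ q ∈ oddBlock i, (Nat.totient q : ℝ) / (4:ℝ)^i := by
    apply Finset.sum_le_sum
    intro q hq
    rw [oddBlock, Finset.mem_filter, Finset.mem_Ioc] at hq
    have hq' : (4:ℝ)^i ≤ q := by exact_mod_cast hq.1.1.le
    exact div_le_div_of_nonneg_left (Nat.cast_nonneg _) (by positivity) hq'
  rw [← Finset.sum_div] at h4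
  have h5 := h3.trans h4
  rw [le_div_iff₀ (by positivity)] at h5
  calc ((4:ℝ)^(i+1))^2 / 32 = (4:ℝ)^(i+1)/8 * (4:ℝ)^i := by ring
    _ ≤ _ := h5

end Pool.Agent.Lib.MP_4e48d5_nt
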