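import Mathlib

/-!
The overlap estimate: for two different denominators `Q ≠ Q'` there are at most `2 Q Q' δ` pairs of
reduced fractions `a/Q`, `a'/Q'` in `[0,1)` at distance less than `δ`.
-/

set_option autoImplicit false

namespace Pool.Agent.Lib.MP_4e48d5_nt

open Finset

/-- Pairs of numerators of reduced fractions at distance less than `δ`. -/
noncomputable def closePairs (Q Q' : ℕ) (δ : ℝ) : Finset (ℕ × ℕ) :=
  open Classical in
  ((range Q) ×ˢ (range Q')).filter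
    (fun p => Nat.Coprime p.1 Q ∧ Nat.Coprime p.2 Q' ∧ |(p.1:ℝ)/Q - (p.2:ℝ)/Q'| < δ)

theorem mem_closePairs {Q Q' : ℕ} {δ : ℝ} {p : ℕ × ℕ} : p ∈ closePairs Q Q' δ ↔
    (p.1 < Q ∧ p.2 < Q') ∧ (Nat.Coprime p.1 Q ∧ Nat.Coprime p.2 Q' ∧
      |(p.1:ℝ)/Q - (p.2:ℝ)/Q'| < δ) := by
  classical
  unfold closePairs
  rw [Finset.mem_filter, Finset.mem_product, Finset.mem_range, Finset.mem_range]

theorem card_closePairs_le (Q Q' : ℕ) (hQ : 0 < Q) (hQ' : 0 < Q') (hne : Q ≠ Q') (δ : ℝ)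
    (hδ : 0 ≤ δ) : ((closePairs Q Q' δ).card : ℝ) ≤ 2 * Q * Q' * δ := by
  classical
  obtain ⟨g, u, v, hg, hcop, hQu, hQv⟩ := Nat.exists_coprime' (m := Q) (n := Q')
    (Nat.gcd_pos_of_pos_left _ hQ)
  have hu : 0 < u := by
    rcases Nat.eq_zero_or_pos u with h | h
    · subst h; simp at hQu; omega
    · exact h
  have hv : 0 < v := by
    rcases Nat.eq_zero_or_pos v with h | h
    · subst h; simp at hQv; omega
    · exact h
  obtain ⟨Y, hY⟩ : ∃ Y : ℝ, Y = g * u * v * δ := ⟨_, rfl⟩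
  have hY0 : 0 ≤ Y := by rw [hY]; positivity
  obtain ⟨n, hn⟩ : ∃ n : ℕ, n = ⌈Y⌉₊ - 1 := ⟨_, rfl⟩
  have hnY : (n:ℝ) ≤ Y := by
    rcases Nat.eq_zero_or_pos ⌈Y⌉₊ with h | h
    · rw [hn, h]; simpa using hY0
    · have h1 : (⌈Y⌉₊:ℝ) < Y + 1 := Nat.ceil_lt_add_one hY0
      have h2 : ((n + 1 : ℕ) : ℝ) = (⌈Y⌉₊ : ℝ) := by
        congr 1; omega
      push_cast at h2
      linarith
  let f : ℕ × ℕ → ℤ × ℕ := fun p => ((p.1:ℤ) * v - (p.2:ℤ) * u, p.1 / u)
  have hmaps : ∀ p ∈ closePairs Q Q' δ,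
      f p ∈ ((Finset.Icc (-(n:ℤ)) (n:ℤ)).erase 0) ×ˢ (range g) := by
    intro p hp
    rw [mem_closePairs] at hp
    obtain ⟨⟨h1, h2⟩, h3, h4, h5⟩ := hp
    have hne0 : (p.1:ℤ) * v - (p.2:ℤ) * u ≠ 0 := by
      intro h0
      have h6 : p.1 * v = p.2 * u := by
        have : (p.1:ℤ) * v = (p.2:ℤ) * u := by linarith
        exact_mod_cast this
      have h7 : p.1 * Q' = p.2 * Q := by
        rw [hQu, hQv, ← mul_assoc, ← mul_assoc, h6]
      have h8 : Q ∣ Q' := by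
        apply Nat.Coprime.dvd_of_dvd_mul_left h3.symm
        rw [h7]; exact dvd_mul_left _ _
      have h9 : Q' ∣ Q := by
        apply Nat.Coprime.dvd_of_dvd_mul_left h4.symm
        rw [← h7]; exact dvd_mul_left _ _
      exact hne (Nat.dvd_antisymm h8 h9)
    have habs : |((p.1:ℤ) * v - (p.2:ℤ) * u : ℤ)| < ⌈Y⌉₊ := by
      have hgR : (0:ℝ) < g := by exact_mod_cast hg
      have huR : (0:ℝ) < u := by exact_mod_cast hu
      have hvR : (0:ℝ) < v := by exact_mod_cast hv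
      have e1 : (p.1:ℝ)/Q - (p.2:ℝ)/Q' = ((p.1:ℝ) * v - (p.2:ℝ) * u) / (g * u * v) := by
        rw [hQu, hQv]; push_cast
        field_simp
      rw [e1, abs_div, abs_of_pos (by positivity : (0:ℝ) < g * u * v),
        div_lt_iff₀ (by positivity)] at h5
      have h6 : |(p.1:ℝ) * v - (p.2:ℝ) * u| < Y := by rw [hY]; linarith
      have h7 : (((((p.1:ℤ) * v - (p.2:ℤ) * u : ℤ)).natAbs : ℕ) : ℝ) < Y := by
        rw [Nat.cast_natAbs]; push_cast; exact h6
      have h8 := Nat.lt_ceil.mpr h7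
      rw [Int.abs_eq_natAbs]
      exact_mod_cast h8
    rw [Finset.mem_product, Finset.mem_erase, Finset.mem_Icc, Finset.mem_range]
    refine ⟨⟨hne0, ?_, ?_⟩, ?_⟩
    · change -(n:ℤ) ≤ (p.1:ℤ) * v - (p.2:ℤ) * u
      have := abs_lt.mp habs
      omega
    · change (p.1:ℤ) * v - (p.2:ℤ) * u ≤ n
      have := abs_lt.mp habs
      omega
    · change p.1 / u < g
      apply Nat.div_lt_of_lt_mul
      rw [← hQu]; exact h1
  have hinj : Set.InjOn f (closePairs Q Q' δ) := by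
    intro p _ q _ hpq
    simp only [f, Prod.mk.injEq] at hpq
    obtain ⟨h1, h2⟩ := hpq
    have h3 : ((p.1:ℤ) - q.1) * v = ((p.2:ℤ) - q.2) * u := by linarith
    have h4 : (u:ℤ) ∣ ((p.1:ℤ) - q.1) * v := ⟨(p.2:ℤ) - q.2, by rw [h3]; ring⟩
    have h5 : (u:ℤ) ∣ (p.1:ℤ) - q.1 := by
      apply IsCoprime.dvd_of_dvd_mul_right _ h4
      exact Nat.isCoprime_iff_coprime.mpr hcop
    have h6 : p.1 % u = q.1 % u := by
      have : (q.1:ℤ) ≡ p.1 [ZMOD u] := Int.modEq_iff_dvd.mpr h5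
      exact (Int.natCast_modEq_iff.mp this).symm
    have h7 : p.1 = q.1 := by
      rw [← Nat.div_add_mod p.1 u, ← Nat.div_add_mod q.1 u, h2, h6]
    have h8 : p.2 = q.2 := by
      rw [h7, sub_self, zero_mul] at h3
      have h9 : ((p.2:ℤ) - q.2) = 0 := by
        rcases mul_eq_zero.mp h3.symm with h | h
        · exact h
        · exfalso; omega
      omega
    exact Prod.ext h7 h8
  have hcard := Finset.card_le_card_of_injOn f hmaps hinj
  rw [Finset.card_product, Finset.card_range, Finset.card_erase_of_mem (by simp),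
    Int.card_Icc] at hcard
  have e : ((n:ℤ) + 1 - -(n:ℤ)).toNat - 1 = 2 * n := by omega
  rw [e] at hcard
  have hcardR : ((closePairs Q Q' δ).card : ℝ) ≤ 2 * n * g := by exact_mod_cast hcard
  calc ((closePairs Q Q' δ).card : ℝ) ≤ 2 * n * g := hcardR
    _ ≤ 2 * Y * g := by
        apply mul_le_mul_of_nonneg_right _ (Nat.cast_nonneg _)
        linarith
    _ = 2 * Q * Q' * δ := by
        rw [hY, hQu, hQv]; push_cast; ring

end Pool.Agent.Lib.MP_4e48d5_nt
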