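import Mathlib
import Pool.Agent.Lib.MP_4e48d5_nt.Overlap

/-!
Lower bound for the measure of a union of neighbourhoods of reduced fractions.
-/

set_option autoImplicit false

namespace Pool.Agent.Lib.MP_4e48d5_nt

open Finset MeasureTheory

theorem bonferroni {α ι : Type*} [MeasurableSpace α] [DecidableEq ι] (μ : Measure α)
    (s : Finset ι) (A : ι → Set α) (hA : ∀ i, MeasurableSet (A i)) (hfin : ∀ i, μ (A i) ≠ ⊤) :
    ∑ i ∈ s, μ.real (A i) ≤ μ.real (⋃ i ∈ s, A i) +
      ∑ i ∈ s, ∑ j ∈ s, if i = j then 0 else μ.real (A i ∩ A j) := by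
  induction s using Finset.induction_on with
  | empty => simp
  | insert a s ha ih =>
    have hUm : MeasurableSet (⋃ i ∈ s, A i) := Finset.measurableSet_biUnion s (fun i _ => hA i)
    have hUfin : μ (⋃ i ∈ s, A i) ≠ ⊤ := by
      apply ne_of_lt
      exact lt_of_le_of_lt (measure_biUnion_finset_le s A)
        (ENNReal.sum_lt_top.mpr (fun i _ => (hfin i).lt_top))
    have hU : (⋃ i ∈ insert a s, A i) = A a ∪ ⋃ i ∈ s, A i := by
      rw [Finset.set_biUnion_insert]
    have h1 : μ.real (A a ∪ ⋃ i ∈ s, A i) + μ.real (A a ∩ ⋃ i ∈ s, A i) =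
        μ.real (A a) + μ.real (⋃ i ∈ s, A i) :=
      measureReal_union_add_inter hUm (hfin a) hUfin
    have h2 : μ.real (A a ∩ ⋃ i ∈ s, A i) ≤ ∑ j ∈ s, μ.real (A a ∩ A j) := by
      rw [Set.inter_iUnion₂]
      exact measureReal_biUnion_finset_le s _
    have h3 : (∑ i ∈ s, ∑ j ∈ s, if i = j then 0 else μ.real (A i ∩ A j)) +
        ∑ j ∈ s, μ.real (A a ∩ A j) ≤
        ∑ i ∈ insert a s, ∑ j ∈ insert a s, if i = j then 0 else μ.real (A i ∩ A j) := by
      rw [Finset.sum_insert ha, add_comm]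
      apply add_le_add
      · rw [Finset.sum_insert ha]
        simp only [if_true, zero_add]
        apply le_of_eq
        apply Finset.sum_congr rfl
        intro j hj
        rw [if_neg]
        rintro rfl
        exact ha hj
      · apply Finset.sum_le_sum
        intro i hi
        rw [Finset.sum_insert ha]
        have : 0 ≤ (if i = a then 0 else μ.real (A i ∩ A a)) := by
          split_ifs
          · exact le_rfl
          · exact measureReal_nonneg
        linarith
    rw [hU, Finset.sum_insert ha]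
    linarith

/-- The `r`-neighbourhood of the reduced fractions with denominator `Q` in `[0,1)`. -/
def nbhd (Q : ℕ) (r : ℝ) : Set ℝ :=
  ⋃ a ∈ (range Q).filter (fun a => Nat.Coprime Q a), Set.Ioo ((a:ℝ)/Q - r) ((a:ℝ)/Q + r)

theorem measurableSet_nbhd (Q : ℕ) (r : ℝ) : MeasurableSet (nbhd Q r) :=
  Finset.measurableSet_biUnion _ (fun _ _ => measurableSet_Ioo)

theorem measure_nbhd_ne_top (Q : ℕ) (r : ℝ) : volume (nbhd Q r) ≠ ⊤ := by
  apply ne_of_lt
  refine lt_of_le_of_lt (measure_biUnion_finset_le _ _) ?_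
  apply ENNReal.sum_lt_top.mpr
  intro a _
  rw [Real.volume_Ioo]
  exact ENNReal.ofReal_lt_top

theorem volume_real_nbhd (Q : ℕ) (hQ : 0 < Q) (r : ℝ) (hr : 0 ≤ r) (hrQ : 2 * r * Q ≤ 1) :
    volume.real (nbhd Q r) = 2 * r * Nat.totient Q := by
  unfold nbhd
  rw [measureReal_biUnion_finset ?_ ?_ (fun a _ => by
    rw [Real.volume_Ioo]; exact ENNReal.ofReal_ne_top)]
  · have : ∀ a ∈ (range Q).filter (fun a => Nat.Coprime Q a),
        volume.real (Set.Ioo ((a:ℝ)/Q - r) ((a:ℝ)/Q + r)) = 2 * r := by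
      intro a _
      rw [Real.volume_real_Ioo_of_le (by linarith)]
      ring
    rw [Finset.sum_congr rfl this, Finset.sum_const, ← Nat.totient_eq_card_coprime, nsmul_eq_mul]
    ring
  · intro a _ b _ hab
    rw [Function.onFun, Set.disjoint_left]
    intro x hx hx'
    rw [Set.mem_Ioo] at hx hx'
    have hQR : (0:ℝ) < Q := by exact_mod_cast hQ
    have h1 : |(a:ℝ)/Q - (b:ℝ)/Q| < 2 * r := by
      rw [abs_lt]; constructor <;> linarith
    rw [← sub_div, abs_div, abs_of_pos hQR, div_lt_iff₀ hQR] at h1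
    have h2 : (1:ℝ) ≤ |(a:ℝ) - b| := by
      have h3 : (1:ℤ) ≤ |(a:ℤ) - b| := by
        apply Int.one_le_abs
        intro h
        apply hab
        have : (a:ℤ) = b := by linarith
        exact_mod_cast this
      exact_mod_cast h3
    linarith
  · intro _ _; exact measurableSet_Ioo

theorem volume_real_nbhd_inter_le (Q Q' : ℕ) (hQ : 0 < Q) (hQ' : 0 < Q') (hne : Q ≠ Q')
    (r r' : ℝ) (hr : 0 ≤ r) (hr' : 0 ≤ r') :
    volume.real (nbhd Q r ∩ nbhd Q' r') ≤ 8 * (Q * r) * (Q' * r') := by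
  have hsub : nbhd Q r ∩ nbhd Q' r' ⊆ ⋃ p ∈ closePairs Q Q' (r + r'),
      (Set.Ioo ((p.1:ℝ)/Q - r) ((p.1:ℝ)/Q + r) ∩ Set.Ioo ((p.2:ℝ)/Q' - r') ((p.2:ℝ)/Q' + r')) := by
    rintro x ⟨hx, hx'⟩
    unfold nbhd at hx hx'
    simp only [Set.mem_iUnion, Finset.mem_filter, Finset.mem_range, exists_prop] at hx hx'
    obtain ⟨a, ⟨ha, ha'⟩, hxa⟩ := hx
    obtain ⟨b, ⟨hb, hb'⟩, hxb⟩ := hx'
    simp only [Set.mem_iUnion, exists_prop]
    refine ⟨(a, b), ?_, hxa, hxb⟩
    rw [mem_closePairs]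
    refine ⟨⟨ha, hb⟩, ha'.symm, hb'.symm, ?_⟩
    rw [Set.mem_Ioo] at hxa hxb
    rw [abs_lt]
    simp only
    constructor <;> linarith
  have hfin : volume (⋃ p ∈ closePairs Q Q' (r + r'),
      (Set.Ioo ((p.1:ℝ)/Q - r) ((p.1:ℝ)/Q + r) ∩
        Set.Ioo ((p.2:ℝ)/Q' - r') ((p.2:ℝ)/Q' + r'))) ≠ ⊤ := by
    apply ne_of_lt
    refine lt_of_le_of_lt (measure_biUnion_finset_le _ _) ?_
    apply ENNReal.sum_lt_top.mpr
    intro p _
    refine lt_of_le_of_lt (measure_mono Set.inter_subset_left) ?_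
    rw [Real.volume_Ioo]
    exact ENNReal.ofReal_lt_top
  have h1 : volume.real (nbhd Q r ∩ nbhd Q' r') ≤
      ∑ p ∈ closePairs Q Q' (r + r'), 2 * min r r' := by
    refine (measureReal_mono hsub hfin).trans ?_
    refine (measureReal_biUnion_finset_le _ _).trans ?_
    apply Finset.sum_le_sum
    intro p _
    rcases le_total r r' with h | h
    · rw [min_eq_left h]
      refine (measureReal_mono Set.inter_subset_left ?_).trans ?_
      · rw [Real.volume_Ioo]; exact ENNReal.ofReal_ne_top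
      · rw [Real.volume_real_Ioo_of_le (by linarith)]
        linarith
    · rw [min_eq_right h]
      refine (measureReal_mono Set.inter_subset_right ?_).trans ?_
      · rw [Real.volume_Ioo]; exact ENNReal.ofReal_ne_top
      · rw [Real.volume_real_Ioo_of_le (by linarith)]
        linarith
  rw [Finset.sum_const, nsmul_eq_mul] at h1
  have h2 := card_closePairs_le Q Q' hQ hQ' hne (r + r') (by linarith)
  have hm : 0 ≤ min r r' := le_min hr hr'
  have h3 : (r + r') * min r r' ≤ 2 * (r * r') := by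
    rcases le_total r r' with h | h
    · rw [min_eq_left h]; nlinarith
    · rw [min_eq_right h]; nlinarith
  have hQR : (0:ℝ) < Q := by exact_mod_cast hQ
  have hQR' : (0:ℝ) < Q' := by exact_mod_cast hQ'
  calc volume.real (nbhd Q r ∩ nbhd Q' r') ≤
        ((closePairs Q Q' (r + r')).card : ℝ) * (2 * min r r') := h1
    _ ≤ (2 * Q * Q' * (r + r')) * (2 * min r r') := by
        apply mul_le_mul_of_nonneg_right h2 (by positivity)
    _ = 4 * (Q * Q') * ((r + r') * min r r') := by ring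
    _ ≤ 4 * (Q * Q') * (2 * (r * r')) := by
        apply mul_le_mul_of_nonneg_left h3 (by positivity)
    _ = 8 * (Q * r) * (Q' * r') := by ring

theorem volume_real_union_ge {ι : Type*} [DecidableEq ι] (s : Finset ι) (Q : ι → ℕ) (r : ι → ℝ)
    (hQ : ∀ x ∈ s, 0 < Q x) (hr : ∀ x ∈ s, 0 ≤ r x) (hrQ : ∀ x ∈ s, 2 * r x * Q x ≤ 1)
    (hinj : ∀ x ∈ s, ∀ y ∈ s, Q x = Q y → x = y) :
    ∑ x ∈ s, 2 * r x * Nat.totient (Q x) - 8 * (∑ x ∈ s, Q x * r x)^2 ≤
      volume.real (⋃ x ∈ s, nbhd (Q x) (r x)) := by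
  have h := bonferroni volume s (fun x => nbhd (Q x) (r x))
    (fun x => measurableSet_nbhd _ _) (fun x => measure_nbhd_ne_top _ _)
  have h1 : ∑ x ∈ s, volume.real (nbhd (Q x) (r x)) = ∑ x ∈ s, 2 * r x * Nat.totient (Q x) := by
    apply Finset.sum_congr rfl
    intro x hx
    exact volume_real_nbhd (Q x) (hQ x hx) (r x) (hr x hx) (hrQ x hx)
  have h2 : (∑ i ∈ s, ∑ j ∈ s, if i = j then 0 else
      volume.real (nbhd (Q i) (r i) ∩ nbhd (Q j) (r j))) ≤ 8 * (∑ x ∈ s, Q x * r x)^2 := by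
    rw [pow_two, Finset.sum_mul_sum, Finset.mul_sum]
    apply Finset.sum_le_sum
    intro i hi
    rw [Finset.mul_sum]
    apply Finset.sum_le_sum
    intro j hj
    have hpos : 0 ≤ 8 * ((Q i * r i) * (Q j * r j)) := by
      have := hr i hi
      have := hr j hj
      positivity
    split_ifs with hij
    · exact hpos
    · have := volume_real_nbhd_inter_le (Q i) (Q j) (hQ i hi) (hQ j hj)
        (fun h => hij (hinj i hi j hj h)) (r i) (r j) (hr i hi) (hr j hj)
      linarith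
  rw [h1] at h
  linarith

end Pool.Agent.Lib.MP_4e48d5_nt
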