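import Mathlib
import Pool.Agent.Lib.MP_4e48d5_nt.Totient
import Pool.Agent.Lib.MP_4e48d5_nt.Union

/-!
The family of denominators `2^j q` with `q` odd, `4^i < q ≤ 4^(i+1)`, `2^k ≤ i, j < 2^(k+1)`.
-/

set_option autoImplicit false

namespace Pool.Agent.Lib.MP_4e48d5_nt

open Finset MeasureTheory

/-- `[2^k, 2^(k+1))`. -/
def blk (k : ℕ) : Finset ℕ := Ico (2^k) (2^(k+1))

theorem card_blk (k : ℕ) : (blk k).card = 2^k := by
  unfold blk
  rw [Nat.card_Ico, pow_succ]; omega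

/-- Index set: `⟨k, (i, j), q⟩`. -/
def idx (K K' : ℕ) : Finset (Σ _ : ℕ, Σ _ : ℕ × ℕ, ℕ) :=
  (Ico K K').sigma (fun k => (blk k ×ˢ blk k).sigma (fun p => oddBlock p.1))

/-- The denominator attached to an index. -/
def den (x : Σ _ : ℕ, Σ _ : ℕ × ℕ, ℕ) : ℕ := 2^(x.2.1.2) * x.2.2

/-- The radius attached to an index. -/
noncomputable def rad (ρ : ℕ → ℝ) (x : Σ _ : ℕ, Σ _ : ℕ × ℕ, ℕ) : ℝ :=
  ρ x.1 / (2^(x.2.1.2) * 16^(x.2.1.1+1))

theorem mem_idx {K K' : ℕ} {x : Σ _ : ℕ, Σ _ : ℕ × ℕ, ℕ} : x ∈ idx K K' ↔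
    (K ≤ x.1 ∧ x.1 < K') ∧ (2^x.1 ≤ x.2.1.1 ∧ x.2.1.1 < 2^(x.1+1)) ∧
    (2^x.1 ≤ x.2.1.2 ∧ x.2.1.2 < 2^(x.1+1)) ∧
    (4^x.2.1.1 < x.2.2 ∧ x.2.2 ≤ 4^(x.2.1.1+1)) ∧ Odd x.2.2 := by
  simp only [idx, blk, oddBlock, Finset.mem_sigma, Finset.mem_product, Finset.mem_Ico,
    Finset.mem_filter, Finset.mem_Ioc]
  tauto

theorem sum_idx (K K' : ℕ) (f : (Σ _ : ℕ, Σ _ : ℕ × ℕ, ℕ) → ℝ) :
    ∑ x ∈ idx K K', f x = ∑ k ∈ Ico K K', ∑ p ∈ blk k ×ˢ blk k, ∑ q ∈ oddBlock p.1,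
      f ⟨k, p, q⟩ := by
  unfold idx
  rw [Finset.sum_sigma]
  apply Finset.sum_congr rfl
  intro k _
  rw [Finset.sum_sigma]

theorem totient_two_pow_mul (j q : ℕ) (hj : 1 ≤ j) (hq : Odd q) :
    (Nat.totient (2^j * q) : ℝ) = 2^j / 2 * Nat.totient q := by
  obtain ⟨m, rfl⟩ : ∃ m, j = m + 1 := ⟨j - 1, by omega⟩
  have hc : Nat.Coprime (2^(m+1)) q := by
    apply Nat.Coprime.pow_left
    rw [Nat.coprime_two_left]; exact hq
  rw [Nat.totient_mul hc, Nat.totient_prime_pow Nat.prime_two (by omega)]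
  push_cast
  rw [pow_succ]
  ring

theorem block_totient (ρ : ℕ → ℝ) (hρ : ∀ k, 0 ≤ ρ k) (k i j : ℕ) (hi : 1 ≤ i) (hj : 1 ≤ j) :
    ρ k / 32 ≤ ∑ q ∈ oddBlock i, 2 * rad ρ ⟨k, (i, j), q⟩ * Nat.totient (den ⟨k, (i, j), q⟩) := by
  have h1 : ∀ q ∈ oddBlock i,
      2 * rad ρ ⟨k, (i, j), q⟩ * (Nat.totient (den ⟨k, (i, j), q⟩) : ℝ) =
      (ρ k / 16^(i+1)) * (Nat.totient q : ℝ) := by
    intro q hq
    have hodd : Odd q := (Finset.mem_filter.mp hq).2
    unfold rad den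
    simp only
    rw [totient_two_pow_mul j q hj hodd]
    field_simp
  rw [Finset.sum_congr rfl h1, ← Finset.mul_sum]
  have h2 := sum_totient_oddBlock_ge i hi
  have h3 : ((4:ℝ)^(i+1))^2 = 16^(i+1) := by
    rw [← pow_mul, mul_comm, pow_mul]; norm_num
  rw [h3] at h2
  calc ρ k / 32 = (ρ k / 16^(i+1)) * (16^(i+1) / 32) := by field_simp
    _ ≤ _ := mul_le_mul_of_nonneg_left h2 (div_nonneg (hρ k) (by positivity))

theorem block_sum (ρ : ℕ → ℝ) (hρ : ∀ k, 0 ≤ ρ k) (k i j : ℕ) (hi : 1 ≤ i) :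
    ∑ q ∈ oddBlock i, (den ⟨k, (i, j), q⟩ : ℝ) * rad ρ ⟨k, (i, j), q⟩ ≤ 3/8 * ρ k := by
  have h1 : ∀ q ∈ oddBlock i,
      (den ⟨k, (i, j), q⟩ : ℝ) * rad ρ ⟨k, (i, j), q⟩ ≤ ρ k / 4^(i+1) := by
    intro q hq
    have hq' : q ≤ 4^(i+1) := (Finset.mem_Ioc.mp (Finset.mem_filter.mp hq).1).2
    have hqR : (q:ℝ) ≤ 4^(i+1) := by exact_mod_cast hq'
    unfold rad den
    simp only
    push_cast
    have h3 : (16:ℝ)^(i+1) = 4^(i+1) * 4^(i+1) := by
      rw [← mul_pow]; norm_num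
    have h4 : (2:ℝ)^j * q * (ρ k / (2^j * 16^(i+1))) = (q / 4^(i+1)) * (ρ k / 4^(i+1)) := by
      rw [h3]; field_simp
    rw [h4]
    calc ((q:ℝ) / 4^(i+1)) * (ρ k / 4^(i+1)) ≤ 1 * (ρ k / 4^(i+1)) := by
          apply mul_le_mul_of_nonneg_right _ (div_nonneg (hρ k) (by positivity))
          rw [div_le_one (by positivity)]; exact hqR
      _ = _ := one_mul _
  refine (Finset.sum_le_sum h1).trans ?_
  rw [Finset.sum_const, nsmul_eq_mul]
  have hc := card_oddBlock i hi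
  have hc' : (8:ℝ) * (oddBlock i).card = 3 * 4^(i+1) := by exact_mod_cast hc
  have : ((oddBlock i).card : ℝ) = 3/8 * 4^(i+1) := by linarith
  rw [this]
  apply le_of_eq
  field_simp

theorem volume_family_ge (ρ : ℕ → ℝ) (hρ : ∀ k, 0 ≤ ρ k) (K K' : ℕ)
    (hσ : ∑ k ∈ Ico K K', 4^k * ρ k ≤ 1/72) :
    (∑ k ∈ Ico K K', 4^k * ρ k) / 64 ≤
      volume.real (⋃ x ∈ idx K K', nbhd (den x) (rad ρ x)) := by
  obtain ⟨σ, hσ'⟩ : ∃ σ, σ = ∑ k ∈ Ico K K', 4^k * ρ k := ⟨_, rfl⟩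
  rw [← hσ'] at hσ ⊢
  have hσ0 : 0 ≤ σ := by
    rw [hσ']; exact Finset.sum_nonneg (fun k _ => mul_nonneg (by positivity) (hρ k))
  have hρle : ∀ k ∈ Ico K K', ρ k ≤ 1/72 := by
    intro k hk
    have h1 : 4^k * ρ k ≤ σ := by
      rw [hσ']
      exact Finset.single_le_sum (f := fun k => 4^k * ρ k)
        (fun k _ => mul_nonneg (by positivity) (hρ k)) hk
    have h2 : ρ k ≤ 4^k * ρ k := by
      have : (1:ℝ) ≤ 4^k := one_le_pow₀ (by norm_num)
      nlinarith [hρ k]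
    linarith
  have hmain := volume_real_union_ge (idx K K') den (rad ρ) ?_ ?_ ?_ ?_
  · have hA : σ / 32 ≤ ∑ x ∈ idx K K', 2 * rad ρ x * Nat.totient (den x) := by
      rw [sum_idx, hσ', Finset.sum_div]
      apply Finset.sum_le_sum
      intro k _
      have : ∀ p ∈ blk k ×ˢ blk k, ρ k / 32 ≤
          ∑ q ∈ oddBlock p.1, 2 * rad ρ ⟨k, p, q⟩ * Nat.totient (den ⟨k, p, q⟩) := by
        intro p hp
        rw [Finset.mem_product, blk, Finset.mem_Ico, Finset.mem_Ico] at hp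
        have hpos : 0 < 2^k := by positivity
        exact block_totient ρ hρ k p.1 p.2 (by omega) (by omega)
      refine le_trans ?_ (Finset.sum_le_sum this)
      rw [Finset.sum_const, Finset.card_product, card_blk, nsmul_eq_mul]
      apply le_of_eq
      push_cast
      have : (2:ℝ)^k * 2^k = 4^k := by rw [← mul_pow]; norm_num
      rw [this]; ring
    have hB : ∑ x ∈ idx K K', (den x : ℝ) * rad ρ x ≤ 3/8 * σ := by
      rw [sum_idx, hσ', Finset.mul_sum]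
      apply Finset.sum_le_sum
      intro k _
      have : ∀ p ∈ blk k ×ˢ blk k,
          ∑ q ∈ oddBlock p.1, (den ⟨k, p, q⟩ : ℝ) * rad ρ ⟨k, p, q⟩ ≤ 3/8 * ρ k := by
        intro p hp
        rw [Finset.mem_product, blk, Finset.mem_Ico, Finset.mem_Ico] at hp
        have hpos : 0 < 2^k := by positivity
        exact block_sum ρ hρ k p.1 p.2 (by omega)
      refine le_trans (Finset.sum_le_sum this) ?_
      rw [Finset.sum_const, Finset.card_product, card_blk, nsmul_eq_mul]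
      apply le_of_eq
      push_cast
      have : (2:ℝ)^k * 2^k = 4^k := by rw [← mul_pow]; norm_num
      rw [this]; ring
    have hB0 : 0 ≤ ∑ x ∈ idx K K', (den x : ℝ) * rad ρ x := by
      apply Finset.sum_nonneg
      intro x _
      apply mul_nonneg (Nat.cast_nonneg _)
      exact div_nonneg (hρ _) (by positivity)
    have hB2 : (∑ x ∈ idx K K', (den x : ℝ) * rad ρ x)^2 ≤ (3/8 * σ)^2 :=
      pow_le_pow_left₀ hB0 hB 2
    nlinarith
  · intro x hx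
    rw [mem_idx] at hx
    unfold den
    have : 0 < x.2.2 := by omega
    positivity
  · intro x _
    exact div_nonneg (hρ _) (by positivity)
  · intro x hx
    have hx' := mem_idx.mp hx
    obtain ⟨hk, _, _, hq, _⟩ := hx'
    have hρx := hρle x.1 (Finset.mem_Ico.mpr hk)
    have hqR : (x.2.2:ℝ) ≤ 4^(x.2.1.1+1) := by exact_mod_cast hq.2
    unfold rad den
    push_cast
    have h3 : (16:ℝ)^(x.2.1.1+1) = 4^(x.2.1.1+1) * 4^(x.2.1.1+1) := by
      rw [← mul_pow]; norm_num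
    have h4 : 2 * (ρ x.1 / (2^x.2.1.2 * 16^(x.2.1.1+1))) * ((2:ℝ)^x.2.1.2 * x.2.2) =
        2 * ρ x.1 * ((x.2.2 / 4^(x.2.1.1+1)) * (1 / 4^(x.2.1.1+1))) := by
      rw [h3]; field_simp
    rw [h4]
    have h5 : (x.2.2:ℝ) / 4^(x.2.1.1+1) ≤ 1 := by
      rw [div_le_one (by positivity)]; exact hqR
    have h6 : (1:ℝ) / 4^(x.2.1.1+1) ≤ 1 := by
      rw [div_le_one (by positivity)]; exact one_le_pow₀ (by norm_num)
    have h7 : ((x.2.2:ℝ) / 4^(x.2.1.1+1)) * (1 / 4^(x.2.1.1+1)) ≤ 1 * 1 :=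
      mul_le_mul h5 h6 (by positivity) (by norm_num)
    have h8 : 0 ≤ ((x.2.2:ℝ) / 4^(x.2.1.1+1)) * (1 / 4^(x.2.1.1+1)) := by positivity
    have := hρ x.1
    nlinarith
  · rintro ⟨k, ⟨i, j⟩, q⟩ hx ⟨k', ⟨i', j'⟩, q'⟩ hy hxy
    rw [mem_idx] at hx hy
    simp only at hx hy
    obtain ⟨_, hi, hj, hq, hodd⟩ := hx
    obtain ⟨_, hi', hj', hq', hodd'⟩ := hy
    unfold den at hxy
    simp only at hxy
    have hq0 : q ≠ 0 := by omega
    have hq0' : q' ≠ 0 := by omega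
    have hjj : j = j' := by
      have h1 : padicValNat 2 (2^j * q) = j := by
        rw [padicValNat.mul (by positivity) hq0, padicValNat.prime_pow,
          padicValNat.eq_zero_of_not_dvd hodd.not_two_dvd_nat, add_zero]
      have h2 : padicValNat 2 (2^j' * q') = j' := by
        rw [padicValNat.mul (by positivity) hq0', padicValNat.prime_pow,
          padicValNat.eq_zero_of_not_dvd hodd'.not_two_dvd_nat, add_zero]
      rw [← h1, hxy, h2]
    subst hjj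
    have hqq : q = q' := Nat.eq_of_mul_eq_mul_left (by positivity) hxy
    subst hqq
    have hii : i = i' := by
      by_contra hne
      rcases Nat.lt_or_gt_of_ne hne with h | h
      · have : 4^(i+1) ≤ 4^i' := Nat.pow_le_pow_right (by norm_num) h
        omega
      · have : 4^(i'+1) ≤ 4^i := Nat.pow_le_pow_right (by norm_num) h
        omega
    subst hii
    have hkk : k = k' := by
      by_contra hne
      rcases Nat.lt_or_gt_of_ne hne with h | h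
      · have : 2^(k+1) ≤ 2^k' := Nat.pow_le_pow_right (by norm_num) h
        omega
      · have : 2^(k'+1) ≤ 2^k := Nat.pow_le_pow_right (by norm_num) h
        omega
    subst hkk
    rfl

theorem exists_block (u : ℕ → ℝ) (hu0 : ∀ k, 0 ≤ u k) (hu1 : ∀ k, u k ≤ 1/144)
    (hdiv : ¬ Summable u) (K : ℕ) :
    ∃ K', 1/144 ≤ ∑ k ∈ Ico K K', u k ∧ ∑ k ∈ Ico K K', u k ≤ 1/72 := by
  classical
  have htend := (not_summable_iff_tendsto_nat_atTop_of_nonneg hu0).mp hdiv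
  have hex : ∃ n, 1/144 ≤ ∑ k ∈ Ico K n, u k := by
    obtain ⟨n, hn⟩ := (htend.eventually_ge_atTop (1/144 + ∑ k ∈ range K, u k)).exists_forall_of_atTop
    refine ⟨max n K, ?_⟩
    have h1 := hn (max n K) (le_max_left _ _)
    rw [Finset.sum_Ico_eq_sub _ (le_max_right n K)]
    linarith
  obtain ⟨n, hn, hmin⟩ : ∃ n, 1/144 ≤ ∑ k ∈ Ico K n, u k ∧
      ∀ m < n, ¬ (1/144 ≤ ∑ k ∈ Ico K m, u k) :=
    ⟨Nat.find hex, Nat.find_spec hex, fun m hm => Nat.find_min hex hm⟩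
  refine ⟨n, hn, ?_⟩
  have hKn : K < n := by
    by_contra h
    push Not at h
    rw [Finset.Ico_eq_empty_of_le h, Finset.sum_empty] at hn
    norm_num at hn
  obtain ⟨m, rfl⟩ : ∃ m, n = m + 1 := ⟨n - 1, by omega⟩
  have h2 := hmin m (by omega)
  push Not at h2
  rw [Finset.sum_Ico_succ_top (by omega)]
  have := hu1 m
  linarith

end Pool.Agent.Lib.MP_4e48d5_nt
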