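import Mathlib
import Pool.Agent.Lib.MP_4e48d5_nt.Family

/-!
Almost every real number has infinitely many approximations by fractions with denominators
`2^j q`, with the radii `delta ρ`; the proof combines the measure estimate with Gallagher's
zero-one law.
-/

set_option autoImplicit false

namespace Pool.Agent.Lib.MP_4e48d5_nt

open Finset MeasureTheory Filter Topology

/-- The exponent of `2` in `Q`. -/
def jj (Q : ℕ) : ℕ := padicValNat 2 Q

/-- The odd part of `Q`. -/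
def qq (Q : ℕ) : ℕ := Q / 2^(jj Q)

/-- The scale of the odd part. -/
def ii (Q : ℕ) : ℕ := Nat.log 4 (qq Q)

/-- The radii. -/
noncomputable def delta (ρ : ℕ → ℝ) (Q : ℕ) : ℝ :=
  if Nat.log 2 (ii Q) = Nat.log 2 (jj Q) then ρ (Nat.log 2 (ii Q)) / (2^(jj Q) * 16^(ii Q + 1))
  else 0

theorem two_pow_jj_mul_qq (Q : ℕ) : 2^(jj Q) * qq Q = Q := by
  unfold qq jj
  exact Nat.mul_div_cancel' pow_padicValNat_dvd

theorem delta_den (ρ : ℕ → ℝ) {K K' : ℕ} {x : Σ _ : ℕ, Σ _ : ℕ × ℕ, ℕ} (hx : x ∈ idx K K') :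
    delta ρ (den x) = rad ρ x := by
  obtain ⟨k, ⟨i, j⟩, q⟩ := x
  rw [mem_idx] at hx
  simp only at hx
  obtain ⟨_, hi, hj, hq, hodd⟩ := hx
  have hq0 : q ≠ 0 := by omega
  have h1 : jj (den ⟨k, (i, j), q⟩) = j := by
    unfold jj den
    simp only
    rw [padicValNat.mul (by positivity) hq0, padicValNat.prime_pow,
      padicValNat.eq_zero_of_not_dvd hodd.not_two_dvd_nat, add_zero]
  have h2 : qq (den ⟨k, (i, j), q⟩) = q := by
    unfold qq
    rw [h1]
    unfold den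
    simp only
    exact Nat.mul_div_cancel_left q (by positivity)
  have h3 : ii (den ⟨k, (i, j), q⟩) = i := by
    unfold ii
    rw [h2]
    have hne : q ≠ 4^(i+1) := by
      rintro rfl
      rw [pow_succ] at hodd
      have h4 : Odd 4 := (Nat.odd_mul.mp hodd).2
      exact absurd h4 (by decide)
    rw [Nat.log_eq_iff (Or.inr ⟨by norm_num, hq0⟩)]
    omega
  have hpos : 0 < 2^k := by positivity
  have h5 : Nat.log 2 i = k := by
    rw [Nat.log_eq_iff (Or.inr ⟨by norm_num, by omega⟩)]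
    exact hi
  have h6 : Nat.log 2 j = k := by
    rw [Nat.log_eq_iff (Or.inr ⟨by norm_num, by omega⟩)]
    exact hj
  unfold delta rad
  rw [h1, h3, h5, h6, if_pos rfl]

theorem delta_nonneg (ρ : ℕ → ℝ) (hρ : ∀ k, 0 ≤ ρ k) (Q : ℕ) : 0 ≤ delta ρ Q := by
  unfold delta
  split_ifs
  · exact div_nonneg (hρ _) (by positivity)
  · exact le_rfl

theorem delta_le (ρ : ℕ → ℝ) (hρ1 : ∀ k, ρ k ≤ 1) (Q : ℕ) (hQ : 0 < Q) :
    delta ρ Q ≤ 1 / (Q:ℝ) := by
  have hQR : (0:ℝ) < Q := by exact_mod_cast hQ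
  unfold delta
  split_ifs
  · have h1 : (Q:ℝ) ≤ 2^(jj Q) * 16^(ii Q + 1) := by
      have h2 : Q ≤ 2^(jj Q) * 16^(ii Q + 1) := by
        have h3 : qq Q < 4^(ii Q + 1) := Nat.lt_pow_succ_log_self (by norm_num) _
        have h4 : 4^(ii Q + 1) ≤ 16^(ii Q + 1) := Nat.pow_le_pow_left (by norm_num) _
        calc Q = 2^(jj Q) * qq Q := (two_pow_jj_mul_qq Q).symm
          _ ≤ _ := Nat.mul_le_mul_left _ (by omega)
      exact_mod_cast h2
    rw [div_le_div_iff₀ (by positivity) hQR]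
    have := hρ1 (Nat.log 2 (ii Q))
    nlinarith
  · positivity

theorem tendsto_delta (ρ : ℕ → ℝ) (hρ : ∀ k, 0 ≤ ρ k) (hρ1 : ∀ k, ρ k ≤ 1) :
    Tendsto (delta ρ) atTop (𝓝 0) := by
  apply squeeze_zero' (Eventually.of_forall (fun Q => delta_nonneg ρ hρ Q)) _
    tendsto_one_div_atTop_nhds_zero_nat
  filter_upwards [eventually_gt_atTop 0] with Q hQ
  exact delta_le ρ hρ1 Q hQ

theorem norm_coe_le_abs (x : ℝ) : ‖(x : UnitAddCircle)‖ ≤ |x| := by
  rw [UnitAddCircle.norm_eq]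
  simpa using round_le x 0

/-- The tail union. -/
def tail (ρ : ℕ → ℝ) (n : ℕ) : Set UnitAddCircle :=
  ⋃ m ∈ {m : ℕ | 0 < m ∧ n ≤ m}, approxAddOrderOf UnitAddCircle m (delta ρ m)

theorem measurableSet_tail (ρ : ℕ → ℝ) (n : ℕ) : MeasurableSet (tail ρ n) := by
  apply IsOpen.measurableSet
  apply isOpen_biUnion
  intro m _
  exact Metric.isOpen_thickening

theorem volume_tail_ge (ρ : ℕ → ℝ) (hρ : ∀ k, 0 ≤ ρ k) (hρ1 : ∀ k, 4^k * ρ k ≤ 1/144)
    (hdiv : ¬ Summable (fun k => 4^k * ρ k)) (n : ℕ) :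
    ENNReal.ofReal (1/9216) ≤ volume (tail ρ n) := by
  obtain ⟨K', h1, h2⟩ := exists_block (fun k => 4^k * ρ k)
    (fun k => mul_nonneg (by positivity) (hρ k)) hρ1 hdiv n
  have h3 := volume_family_ge ρ hρ n K' h2
  have hρle : ∀ k, ρ k ≤ 1/144 := by
    intro k
    have h4 := hρ1 k
    have : (1:ℝ) ≤ 4^k := one_le_pow₀ (by norm_num)
    nlinarith [hρ k]
  have hsub : (⋃ x ∈ idx n K', nbhd (den x) (rad ρ x)) ⊆
      QuotientAddGroup.mk ⁻¹' (tail ρ n) ∩ Set.Ioc (0:ℝ) (0 + 1) := by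
    intro α hα
    simp only [Set.mem_iUnion, exists_prop, nbhd, Finset.mem_filter, Finset.mem_range] at hα
    obtain ⟨x, hx, a, ⟨ha, hcop⟩, hαa⟩ := hα
    have hδ := delta_den ρ hx
    have hx' := mem_idx.mp hx
    obtain ⟨hk, hi, hj, hq, hodd⟩ := hx'
    have hq0 : 0 < x.2.2 := by omega
    have h2k : x.1 < 2^x.1 := Nat.lt_two_pow_self
    have hjlt : x.2.1.2 < 2^x.2.1.2 := Nat.lt_two_pow_self
    have hden : 2^x.2.1.2 ≤ den x := by
      unfold den
      exact Nat.le_mul_of_pos_right _ hq0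
    have hden2 : 2 ≤ den x := by
      have : 1 ≤ x.2.1.2 := by omega
      have h22 : 2^1 ≤ 2^x.2.1.2 := Nat.pow_le_pow_right (by norm_num) this
      omega
    have hdenR : (2:ℝ) ≤ den x := by exact_mod_cast hden2
    have ha1 : 1 ≤ a := by
      by_contra h
      have : a = 0 := by omega
      rw [this, Nat.coprime_zero_right] at hcop
      omega
    have hr0 : 0 ≤ rad ρ x := by
      unfold rad
      exact div_nonneg (hρ _) (by positivity)
    have hr1 : rad ρ x < 1 / den x := by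
      have hqR : (x.2.2:ℝ) ≤ 4^(x.2.1.1+1) := by exact_mod_cast hq.2
      have h16 : (4:ℝ)^(x.2.1.1+1) ≤ 16^(x.2.1.1+1) :=
        pow_le_pow_left₀ (by norm_num) (by norm_num) _
      rw [lt_div_iff₀ (by linarith)]
      have e : rad ρ x * (den x) = ρ x.1 * (x.2.2 / 16^(x.2.1.1+1)) := by
        unfold rad den; push_cast; field_simp
      rw [e]
      have h5 : (x.2.2:ℝ) / 16^(x.2.1.1+1) ≤ 1 := by
        rw [div_le_one (by positivity)]; linarith
      have h6 : 0 ≤ (x.2.2:ℝ) / 16^(x.2.1.1+1) := by positivity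
      have := hρle x.1
      have := hρ x.1
      nlinarith
    rw [Set.mem_Ioo] at hαa
    have haR : (1:ℝ) ≤ a := by exact_mod_cast ha1
    have haR2 : (a:ℝ) + 1 ≤ den x := by exact_mod_cast ha
    have hdpos : (0:ℝ) < den x := by linarith
    have h7 : 1 / (den x : ℝ) ≤ a / den x := div_le_div_of_nonneg_right haR hdpos.le
    have h8 : (a:ℝ) / den x + 1 / den x ≤ 1 := by
      rw [← add_div, div_le_one hdpos]; exact haR2
    constructor
    · rw [Set.mem_preimage]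
      unfold tail
      simp only [Set.mem_iUnion, exists_prop]
      refine ⟨den x, ⟨by omega, by omega⟩, ?_⟩
      rw [UnitAddCircle.mem_approxAddOrderOf_iff (by omega)]
      refine ⟨a, ha, hcop.symm, ?_⟩
      rw [hδ]
      change ‖((α:ℝ) : UnitAddCircle) - _‖ < _
      rw [← AddCircle.coe_sub]
      refine lt_of_le_of_lt (norm_coe_le_abs _) ?_
      rw [abs_lt]; constructor <;> linarith
    · rw [Set.mem_Ioc]
      constructor <;> linarith
  have h4 : volume (tail ρ n) = volume (QuotientAddGroup.mk ⁻¹' (tail ρ n) ∩ Set.Ioc (0:ℝ) (0 + 1)) :=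
    AddCircle.add_projection_respects_measure 1 0 (measurableSet_tail ρ n)
  rw [h4]
  refine le_trans ?_ (measure_mono hsub)
  rw [← ofReal_measureReal (by
    apply ne_of_lt
    refine lt_of_le_of_lt (measure_mono hsub) ?_
    refine lt_of_le_of_lt (measure_mono Set.inter_subset_right) ?_
    rw [Real.volume_Ioc]
    exact ENNReal.ofReal_lt_top)]
  apply ENNReal.ofReal_le_ofReal
  linarith

theorem addWellApproximable_eq (ρ : ℕ → ℝ) :
    addWellApproximable UnitAddCircle (delta ρ) = ⋂ n, tail ρ n := by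
  unfold addWellApproximable
  rw [blimsup_eq_iInf_biSup_of_nat]
  rfl

theorem antitone_tail (ρ : ℕ → ℝ) : Antitone (tail ρ) := by
  intro n m hnm
  unfold tail
  apply Set.biUnion_subset_biUnion_left
  intro k hk
  exact ⟨hk.1, hnm.trans hk.2⟩

theorem ae_mem_circle (ρ : ℕ → ℝ) (hρ : ∀ k, 0 ≤ ρ k) (hρ1 : ∀ k, 4^k * ρ k ≤ 1/144)
    (hdiv : ¬ Summable (fun k => 4^k * ρ k)) :
    ∀ᵐ x : UnitAddCircle, x ∈ addWellApproximable UnitAddCircle (delta ρ) := by
  have hρle : ∀ k, ρ k ≤ 1 := by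
    intro k
    have h4 := hρ1 k
    have : (1:ℝ) ≤ 4^k := one_le_pow₀ (by norm_num)
    nlinarith [hρ k]
  rcases AddCircle.addWellApproximable_ae_empty_or_univ (T := 1) (delta ρ)
    (tendsto_delta ρ hρ hρle) with h | h
  · exfalso
    have h1 : volume (⋂ n, tail ρ n) = 0 := by
      rw [← addWellApproximable_eq]
      exact measure_eq_zero_iff_ae_notMem.mpr h
    have h2 : Tendsto (volume ∘ tail ρ) atTop (𝓝 (volume (⋂ n, tail ρ n))) := by
      apply tendsto_measure_iInter_atTop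
      · intro n; exact (measurableSet_tail ρ n).nullMeasurableSet
      · exact antitone_tail ρ
      · exact ⟨0, measure_ne_top _ _⟩
    have h3 : ENNReal.ofReal (1/9216) ≤ volume (⋂ n, tail ρ n) :=
      ge_of_tendsto' h2 (fun n => volume_tail_ge ρ hρ hρ1 hdiv n)
    rw [h1] at h3
    have h4 : (0:ENNReal) < ENNReal.ofReal (1/9216) := ENNReal.ofReal_pos.mpr (by norm_num)
    exact absurd h3 (not_le.mpr h4)
  · exact h

/-- A property that holds almost everywhere on the circle holds at almost every real number. -/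
theorem ae_real_of_ae_circle {p : UnitAddCircle → Prop} (h : ∀ᵐ x : UnitAddCircle, p x) :
    ∀ᵐ α : ℝ, p (α : UnitAddCircle) := by
  have h1 : ∀ n : ℤ, ∀ᵐ α : ℝ ∂(volume.restrict (Set.Ioc (n:ℝ) (n + 1))), p (α : UnitAddCircle) :=
    fun n => (UnitAddCircle.measurePreserving_mk (n:ℝ)).quasiMeasurePreserving.ae h
  have h2 : ∀ᵐ α : ℝ ∂(volume.restrict (⋃ n : ℤ, Set.Ioc (n:ℝ) (n + 1))),
      p (α : UnitAddCircle) := by
    rw [ae_restrict_iUnion_iff]
    exact h1
  rwa [iUnion_Ioc_intCast, Measure.restrict_univ] at h2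

/-- Almost every real number is infinitely often approximable with the radii `delta ρ`. -/
theorem ae_infinite (ρ : ℕ → ℝ) (hρ : ∀ k, 0 ≤ ρ k) (hρ1 : ∀ k, 4^k * ρ k ≤ 1/144)
    (hdiv : ¬ Summable (fun k => 4^k * ρ k)) :
    ∀ᵐ α : ℝ, {Q : ℕ | 0 < Q ∧ ∃ c : ℤ, |α - c / Q| < delta ρ Q}.Infinite := by
  filter_upwards [ae_real_of_ae_circle (ae_mem_circle ρ hρ hρ1 hdiv)] with α hα
  rw [UnitAddCircle.mem_addWellApproximable_iff] at hα
  apply hα.mono
  rintro Q ⟨m, hm, _, hnorm⟩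
  have hQ : 0 < Q := by omega
  have hQR : (0:ℝ) < Q := by exact_mod_cast hQ
  refine ⟨hQ, m + round (α - (m:ℝ)/Q) * Q, ?_⟩
  rw [← AddCircle.coe_sub, UnitAddCircle.norm_eq] at hnorm
  have e : α - (((m:ℤ) + round (α - (m:ℝ)/Q) * (Q:ℤ) : ℤ) : ℝ) / Q =
      α - (m:ℝ)/Q - round (α - (m:ℝ)/Q) := by
    push_cast
    field_simp
    ring
  rw [e]
  exact hnorm

end Pool.Agent.Lib.MP_4e48d5_nt
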